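import Pool.Agent.Results.MP_8e2770_co.ThreeByThree

set_option autoImplicit false

open Finset

namespace Pool.Agent.Results.MP_8e2770_co.FourByFour

section poly
open MvPolynomial
variable {F : Type*} [Field F]

lemma lead {ι σ : Type*} (L : ι → MvPolynomial σ F) (hL : ∀ j, (L j).totalDegree ≤ 1)
    (z : ι → F) (s : Finset ι) :
    (∏ j ∈ s, L j).totalDegree ≤ s.card ∧
      ∃ R : MvPolynomial σ F, ∏ j ∈ s, (L j - C (z j)) = ∏ j ∈ s, L j + R ∧
        (R = 0 ∨ R.totalDegree < s.card) := by
  classical
  induction s using Finset.induction_on with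
  | empty => exact ⟨by simp, 0, by simp, Or.inl rfl⟩
  | insert j s hj ih =>
    obtain ⟨h1, R, hR, hR2⟩ := ih
    have hj1 := hL j
    rw [prod_insert hj, prod_insert hj, card_insert_of_notMem hj, hR]
    refine ⟨(totalDegree_mul _ _).trans (by omega),
      L j * R - C (z j) * ∏ j ∈ s, L j - C (z j) * R, by ring, Or.inr ?_⟩
    have a1 : (L j * R).totalDegree < s.card + 1 := by
      rcases hR2 with rfl | h
      · simp
      · exact (totalDegree_mul _ _).trans_lt (by omega)
    have a2 : (C (z j) * ∏ j ∈ s, L j).totalDegree < s.card + 1 :=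
      (totalDegree_mul _ _).trans_lt (by rw [totalDegree_C]; omega)
    have a3 : (C (z j) * R).totalDegree < s.card + 1 := by
      rcases hR2 with rfl | h
      · simp
      · exact (totalDegree_mul _ _).trans_lt (by rw [totalDegree_C]; omega)
    exact (totalDegree_sub _ _).trans_lt (max_lt ((totalDegree_sub _ _).trans_lt (max_lt a1 a2)) a3)

lemma coeff_zero (A : Matrix (Fin 4) (Fin 4) F) (u : Fin 4 → F) (S : Fin 4 → Finset F)
    (hS : ∀ i, (S i).card = 3)
    (H : ∀ x : Fin 4 → F, (∀ i, x i ∈ S i) → ∏ j, (Matrix.mulVec A x j - u j) = 0)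
    (t : Fin 4 →₀ ℕ) (ht : t.degree = 4) (ht2 : ∀ i, t i < 3) :
    coeff t (∏ j : Fin 4, (∑ i, C (A j i) * X i : MvPolynomial (Fin 4) F)) = 0 := by
  classical
  by_contra hne
  set L : Fin 4 → MvPolynomial (Fin 4) F := fun j => ∑ i, C (A j i) * X i with hLdef
  have hL : ∀ j, (L j).totalDegree ≤ 1 := by
    intro j
    exact (IsHomogeneous.sum _ _ 1 (fun i _ => isHomogeneous_C_mul_X (A j i) i)).totalDegree_le
  obtain ⟨h1, R, hR, hR2⟩ := lead L hL u univ
  rw [card_univ, Fintype.card_fin] at h1 hR2
  have hcR : coeff t R = 0 := by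
    rcases hR2 with rfl | h
    · simp
    · apply coeff_eq_zero_of_totalDegree_lt
      have : (∑ i ∈ t.support, t i) = 4 := ht
      rw [this]
      exact h
  have hcP : coeff t (∏ j, (L j - C (u j))) ≠ 0 := by
    rw [hR, coeff_add, hcR, add_zero]
    exact hne
  have hdeg : (∏ j, (L j - C (u j))).totalDegree = t.degree := by
    rw [ht]
    apply le_antisymm
    · rw [hR]
      refine (totalDegree_add _ _).trans (max_le h1 ?_)
      rcases hR2 with rfl | h
      · simp
      · omega
    · have h := le_totalDegree (mem_support_iff.2 hcP)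
      have h' : (t.sum fun _ e => e) = 4 := ht
      rw [h'] at h
      exact h
  obtain ⟨x, hx, hxe⟩ := MvPolynomial.combinatorial_nullstellensatz_exists_eval_nonzero _ t hcP
    hdeg S (fun i => by rw [hS i]; exact ht2 i)
  apply hxe
  rw [map_prod]
  rw [← H x hx]
  refine Finset.prod_congr rfl fun j _ => ?_
  simp [hLdef, Matrix.mulVec, dotProduct]

lemma eval_form (A : Matrix (Fin 4) (Fin 4) F)
    (H : ∀ t : Fin 4 →₀ ℕ, t.degree = 4 → (∀ i, t i < 3) →
      coeff t (∏ j : Fin 4, (∑ i, C (A j i) * X i : MvPolynomial (Fin 4) F)) = 0) :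
    ∃ m : Fin 4 → Fin 4 → F, ∀ v : Fin 4 → F,
      ∏ j, Matrix.mulVec A v j = ∑ i, ∑ j, m i j * (v i ^ 3 * v j) := by
  classical
  set f : MvPolynomial (Fin 4) F := ∏ j : Fin 4, (∑ i, C (A j i) * X i) with hf
  have hhom : f.IsHomogeneous 4 := by
    have := IsHomogeneous.prod univ (fun j : Fin 4 => (∑ i, C (A j i) * X i : MvPolynomial (Fin 4) F))
      (fun _ => 1) (fun j _ => IsHomogeneous.sum _ _ 1 (fun i _ => isHomogeneous_C_mul_X (A j i) i))
    simpa using this
  let φ : Fin 4 × Fin 4 → (Fin 4 →₀ ℕ) := fun q => Finsupp.single q.1 3 + Finsupp.single q.2 1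
  have hφ : Function.Injective φ := by
    intro q q' h
    obtain ⟨i, j⟩ := q
    obtain ⟨i', j'⟩ := q'
    have h1 : i = i' := by
      by_contra hne
      have := DFunLike.congr_fun h i
      simp only [φ, Finsupp.add_apply, Finsupp.single_apply, if_neg (Ne.symm hne), if_true] at this
      split_ifs at this <;> omega
    subst h1
    have h2 : j = j' := by
      have := add_left_cancel h
      exact (Finsupp.single_left_inj one_ne_zero).1 this
    rw [h2]
  have hsupp : f.support ⊆ univ.image φ := by
    intro t ht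
    have hc := mem_support_iff.1 ht
    have hd : t.degree = 4 := by
      have := hhom hc
      rw [Finsupp.degree_eq_weight_one]
      exact this
    by_cases hall : ∀ i, t i < 3
    · exact absurd (H t hd hall) hc
    push Not at hall
    obtain ⟨i, hi⟩ := hall
    have hle : Finsupp.single i 3 ≤ t := by
      rw [Finsupp.single_le_iff]
      exact hi
    obtain ⟨s, hs⟩ := exists_add_of_le hle
    have hsd : s.degree = 1 := by
      rw [hs, map_add, Finsupp.degree_single] at hd
      omega
    obtain ⟨j, hj⟩ : ∃ j, s = Finsupp.single j 1 := by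
      have hsum : ∑ l, s l = 1 := by
        rw [← hsd, Finsupp.degree_eq_sum]
      obtain ⟨j, hj⟩ : ∃ j, s j ≠ 0 := by
        by_contra hn
        push Not at hn
        simp [hn] at hsum
      have hge : Finsupp.single j 1 ≤ s := by
        rw [Finsupp.single_le_iff]; omega
      obtain ⟨r, hr⟩ := exists_add_of_le hge
      have hr0 : r.degree = 0 := by
        rw [hr, map_add, Finsupp.degree_single] at hsd
        omega
      rw [Finsupp.degree_eq_zero_iff] at hr0
      exact ⟨j, by rw [hr, hr0, add_zero]⟩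
    exact mem_image.2 ⟨(i, j), mem_univ _, by rw [hs, hj]⟩
  refine ⟨fun i j => coeff (φ (i, j)) f, fun v => ?_⟩
  have h1 : ∏ j, Matrix.mulVec A v j = eval v f := by
    rw [hf, map_prod]
    refine Finset.prod_congr rfl fun j _ => ?_
    simp [Matrix.mulVec, dotProduct]
  rw [h1, eval_eq', Finset.sum_subset hsupp (fun t _ ht => by
    rw [notMem_support_iff.1 ht, zero_mul]), Finset.sum_image (fun _ _ _ _ h => hφ h),
    ← Finset.univ_product_univ, Finset.sum_product]
  refine Finset.sum_congr rfl fun i _ => Finset.sum_congr rfl fun j _ => ?_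
  congr 1
  simp only [φ, Finsupp.add_apply, pow_add, Finset.prod_mul_distrib]
  simp [Finsupp.single_apply, pow_ite, Finset.prod_ite_eq]

end poly

section algebra
variable {F : Type*} [Field F]

lemma alg (h2 : (2 : F) ≠ 0) (h3 : (3 : F) ≠ 0) (A : Matrix (Fin 4) (Fin 4) F)
    (hA : IsUnit A.det) (m : Fin 4 → Fin 4 → F)
    (hf : ∀ v : Fin 4 → F, ∏ j, Matrix.mulVec A v j = ∑ i, ∑ j, m i j * (v i ^ 3 * v j)) :
    False := by
  classical
  have hAB := Matrix.mul_nonsing_inv A hA
  have hBA := Matrix.nonsing_inv_mul A hA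
  set B := A⁻¹ with hB
  -- the rows of `B` are nonzero and independent
  have hrow : ∀ (w : Fin 4 → F), (∀ l, ∑ j, w j * B j l = 0) → ∀ j, w j = 0 := by
    intro w hw j
    have h1 : Matrix.vecMul w B = 0 := by
      funext l
      exact hw l
    have h2 : Matrix.vecMul (Matrix.vecMul w B) A = w := by
      rw [Matrix.vecMul_vecMul, hBA, Matrix.vecMul_one]
    rw [h1, Matrix.zero_vecMul] at h2
    rw [← h2]
    rfl
  -- second differences along the columns of `B`
  have hsec : ∀ (l : Fin 4) (x : Fin 4 → F),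
      ∑ i, ∑ j, m i j * (x i * x j * B i l ^ 2 + x i ^ 2 * B i l * B j l) = 0 := by
    intro l x
    set P : Fin 4 → F := fun i => B i l with hP
    have hAP : ∀ j, Matrix.mulVec A P j = (1 : Matrix (Fin 4) (Fin 4) F) j l := by
      intro j
      rw [← hAB, Matrix.mul_apply]
      rfl
    have e0 : ∑ i, ∑ j, m i j * (P i ^ 3 * P j) = 0 := by
      rw [← hf]
      obtain ⟨j, hj⟩ : ∃ j : Fin 4, j ≠ l := exists_ne l
      apply Finset.prod_eq_zero (mem_univ j)
      rw [hAP, Matrix.one_apply_ne hj]
    have e1 : ∏ j, Matrix.mulVec A (x + P) j + ∏ j, Matrix.mulVec A (x - P) j -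
        2 * ∏ j, Matrix.mulVec A x j = 0 := by
      have hp : ∀ j, j ≠ l → Matrix.mulVec A (x + P) j = Matrix.mulVec A x j := by
        intro j hj
        rw [Matrix.mulVec_add, Pi.add_apply, hAP, Matrix.one_apply_ne hj, add_zero]
      have hm : ∀ j, j ≠ l → Matrix.mulVec A (x - P) j = Matrix.mulVec A x j := by
        intro j hj
        rw [Matrix.mulVec_sub, Pi.sub_apply, hAP, Matrix.one_apply_ne hj, sub_zero]
      rw [← Finset.mul_prod_erase univ _ (mem_univ l), ← Finset.mul_prod_erase univ _ (mem_univ l),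
        ← Finset.mul_prod_erase univ _ (mem_univ l),
        Finset.prod_congr rfl (fun j hj => hp j (ne_of_mem_erase hj)),
        Finset.prod_congr rfl (fun j hj => hm j (ne_of_mem_erase hj)),
        Matrix.mulVec_add, Matrix.mulVec_sub, Pi.add_apply, Pi.sub_apply, hAP, Matrix.one_apply_eq]
      ring
    rw [hf, hf, hf] at e1
    have e2 : (2 * 3) * ∑ i, ∑ j, m i j * (x i * x j * P i ^ 2 + x i ^ 2 * P i * P j) = 0 := by
      have : (2 * 3) * ∑ i, ∑ j, m i j * (x i * x j * P i ^ 2 + x i ^ 2 * P i * P j) =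
          (∑ i, ∑ j, m i j * ((x + P) i ^ 3 * (x + P) j) +
            ∑ i, ∑ j, m i j * ((x - P) i ^ 3 * (x - P) j) -
            2 * ∑ i, ∑ j, m i j * (x i ^ 3 * x j)) - 2 * ∑ i, ∑ j, m i j * (P i ^ 3 * P j) := by
        simp only [Finset.mul_sum, ← Finset.sum_add_distrib, ← Finset.sum_sub_distrib,
          Pi.add_apply, Pi.sub_apply]
        refine Finset.sum_congr rfl fun i _ => Finset.sum_congr rfl fun j _ => ?_
        ring
      rw [this, e1, e0]
      ring
    exact (mul_eq_zero.1 e2).resolve_left (mul_ne_zero h2 h3)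
  -- consequences
  have E1 : ∀ i l, m i i * B i l ^ 2 + ∑ j, m i j * (B i l * B j l) = 0 := by
    intro i l
    have := hsec l (Pi.single i 1)
    rw [Finset.sum_eq_single i (fun i' _ hi' => by
      refine Finset.sum_eq_zero fun j _ => ?_
      rw [Pi.single_eq_of_ne hi']; ring) (fun h => absurd (mem_univ i) h)] at this
    rw [← this, ← Finset.sum_erase_add univ _ (mem_univ i), ← Finset.sum_erase_add univ _ (mem_univ i),
      Pi.single_eq_same]
    have h5 : ∀ j ∈ univ.erase i, m i j * (1 * (Pi.single i 1 : Fin 4 → F) j * B i l ^ 2 +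
        1 ^ 2 * B i l * B j l) = m i j * (B i l * B j l) := by
      intro j hj
      rw [Pi.single_eq_of_ne (ne_of_mem_erase hj)]
      ring
    rw [Finset.sum_congr rfl h5]
    ring
  have E2 : ∀ i j l, i ≠ j → m i j * B i l ^ 2 + m j i * B j l ^ 2 = 0 := by
    intro i j l hij
    have h1 := hsec l (Pi.single i 1 + Pi.single j 1)
    have h2 := hsec l (Pi.single i 1)
    have h3 := hsec l (Pi.single j 1)
    have key : ∑ a, ∑ b, m a b * ((Pi.single i 1 : Fin 4 → F) a * (Pi.single j 1 : Fin 4 → F) b +
        (Pi.single j 1 : Fin 4 → F) a * (Pi.single i 1 : Fin 4 → F) b) * B a l ^ 2 = 0 := by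
      have h4 : ∑ a, ∑ b, m a b * ((Pi.single i 1 : Fin 4 → F) a * (Pi.single j 1 : Fin 4 → F) b +
          (Pi.single j 1 : Fin 4 → F) a * (Pi.single i 1 : Fin 4 → F) b) * B a l ^ 2 =
          (∑ a, ∑ b, m a b * ((Pi.single i 1 + Pi.single j 1 : Fin 4 → F) a *
            (Pi.single i 1 + Pi.single j 1 : Fin 4 → F) b * B a l ^ 2 +
            (Pi.single i 1 + Pi.single j 1 : Fin 4 → F) a ^ 2 * B a l * B b l) -
          ∑ a, ∑ b, m a b * ((Pi.single i 1 : Fin 4 → F) a * (Pi.single i 1 : Fin 4 → F) b *
            B a l ^ 2 + (Pi.single i 1 : Fin 4 → F) a ^ 2 * B a l * B b l)) -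
          ∑ a, ∑ b, m a b * ((Pi.single j 1 : Fin 4 → F) a * (Pi.single j 1 : Fin 4 → F) b *
            B a l ^ 2 + (Pi.single j 1 : Fin 4 → F) a ^ 2 * B a l * B b l) := by
        simp only [← Finset.sum_sub_distrib, Pi.add_apply]
        refine Finset.sum_congr rfl fun a _ => Finset.sum_congr rfl fun b _ => ?_
        have hz : (Pi.single i 1 : Fin 4 → F) a * (Pi.single j 1 : Fin 4 → F) a = 0 := by
          by_cases ha : a = i
          · subst ha
            rw [Pi.single_eq_of_ne hij, mul_zero]
          · rw [Pi.single_eq_of_ne ha, zero_mul]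
        linear_combination (-2 * m a b * B a l * B b l) * hz
      rw [h4, h1, h2, h3]
      ring
    have h5 : ∑ a, ∑ b, m a b * ((Pi.single i 1 : Fin 4 → F) a * (Pi.single j 1 : Fin 4 → F) b +
        (Pi.single j 1 : Fin 4 → F) a * (Pi.single i 1 : Fin 4 → F) b) * B a l ^ 2 =
        m i j * B i l ^ 2 + m j i * B j l ^ 2 := by
      simp only [Pi.single_apply, mul_add, add_mul, Finset.sum_add_distrib]
      simp
    rw [← h5]
    exact key
  -- all coefficients vanish
  have hm0 : ∀ i j, m i j = 0 := by
    intro i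
    have hBi : ∃ l, B i l ≠ 0 := by
      by_contra hn
      push Not at hn
      have := hrow (Pi.single i 1) (fun l => by
        rw [Finset.sum_eq_single i (fun j _ hj => by rw [Pi.single_eq_of_ne hj, zero_mul])
          (fun h => absurd (mem_univ i) h), hn l, mul_zero]) i
      simp at this
    have hrel : ∀ l, ∑ j, (if j = i then 2 * m i i else m i j) * B j l = 0 := by
      intro l
      have hsplit : ∑ j, (if j = i then 2 * m i i else m i j) * B j l =
          m i i * B i l + ∑ j, m i j * B j l := by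
        rw [← Finset.sum_erase_add univ _ (mem_univ i), ← Finset.sum_erase_add univ (fun j => m i j * B j l) (mem_univ i)]
        have : ∀ j ∈ univ.erase i, (if j = i then 2 * m i i else m i j) * B j l = m i j * B j l := by
          intro j hj
          rw [if_neg (ne_of_mem_erase hj)]
        rw [Finset.sum_congr rfl this, if_pos rfl]
        ring
      rw [hsplit]
      by_cases hz : B i l = 0
      · rw [hz, mul_zero, zero_add]
        refine Finset.sum_eq_zero fun j _ => ?_
        by_cases hji : j = i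
        · rw [hji, hz, mul_zero]
        · have h1 := E2 i j l (Ne.symm hji)
          rw [hz] at h1
          have h2 : m j i * B j l ^ 2 = 0 := by linear_combination h1
          rcases mul_eq_zero.1 h2 with h | h
          · obtain ⟨l', hl'⟩ := hBi
            have h3 := E2 i j l' (Ne.symm hji)
            rw [h, zero_mul, add_zero] at h3
            rw [(mul_eq_zero.1 h3).resolve_right (pow_ne_zero 2 hl'), zero_mul]
          · rw [pow_eq_zero_iff two_ne_zero |>.1 h, mul_zero]
      · have h1 := E1 i l
        have h2 : B i l * (m i i * B i l + ∑ j, m i j * B j l) = 0 := by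
          rw [← h1, mul_add, Finset.mul_sum]
          congr 1
          · ring
          · refine Finset.sum_congr rfl fun j _ => ?_
            ring
        exact (mul_eq_zero.1 h2).resolve_left hz
    have hz := hrow _ hrel
    intro j
    have h1 := hz j
    by_cases hji : j = i
    · subst hji
      rw [if_pos rfl] at h1
      exact (mul_eq_zero.1 h1).resolve_left h2
    · rw [if_neg hji] at h1
      exact h1
  have hl := hf (Matrix.mulVec B (fun _ => 1))
  rw [Matrix.mulVec_mulVec, hAB, Matrix.one_mulVec] at hl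
  simp [hm0] at hl

end algebra

lemma four (p : ℕ) [Fact p.Prime] (hp : 5 ≤ p) (A : Matrix (Fin 4) (Fin 4) (ZMod p))
    (hA : IsUnit A.det) (X Y : Fin 4 → Finset (ZMod p)) (hX : ∀ i, (X i).card = 3)
    (hY : ∀ j, (Y j).card = p - 1) :
    ∃ x : Fin 4 → ZMod p, (∀ i, x i ∈ X i) ∧ ∀ j, Matrix.mulVec A x j ∈ Y j := by
  classical
  have hne : ∀ m : ℕ, 0 < m → m < p → ((m : ℕ) : ZMod p) ≠ 0 := by
    intro m h1 h2 h
    have := (ZMod.natCast_eq_zero_iff m p).1 h
    exact absurd (Nat.le_of_dvd h1 this) (by omega)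
  have h2 : (2 : ZMod p) ≠ 0 := by exact_mod_cast hne 2 (by omega) (by omega)
  have h3 : (3 : ZMod p) ≠ 0 := by exact_mod_cast hne 3 (by omega) (by omega)
  by_contra hcon
  push Not at hcon
  have hZ : ∀ j, ∃ z, (Y j)ᶜ = {z} := by
    intro j
    apply Finset.card_eq_one.1
    rw [Finset.card_compl, ZMod.card, hY j]
    omega
  choose u hu using hZ
  have H : ∀ x : Fin 4 → ZMod p, (∀ i, x i ∈ X i) →
      ∏ j, (Matrix.mulVec A x j - u j) = 0 := by
    intro x hx
    obtain ⟨j, hj⟩ := hcon x hx
    have hj' : Matrix.mulVec A x j ∈ (Y j)ᶜ := Finset.mem_compl.2 hj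
    rw [hu j, Finset.mem_singleton] at hj'
    exact Finset.prod_eq_zero (mem_univ j) (sub_eq_zero.2 hj')
  obtain ⟨m, hm⟩ := eval_form A (coeff_zero A u X hX H)
  exact alg h2 h3 A hA m hm

lemma fourAll (p k : ℕ) [Fact p.Prime] (hk : k = 1 ∨ k + 3 = p)
    (A : Matrix (Fin 4) (Fin 4) (ZMod p))
    (hA : IsUnit A.det) (X Y : Fin 4 → Finset (ZMod p)) (hX : ∀ i, (X i).card = k + 2)
    (hY : ∀ j, (Y j).card = p - k) :
    ∃ x : Fin 4 → ZMod p, (∀ i, x i ∈ X i) ∧ ∀ j, Matrix.mulVec A x j ∈ Y j := by
  classical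
  have hkp : k + 2 ≤ p := by
    have := Finset.card_le_univ (X 0)
    rwa [hX, ZMod.card] at this
  rcases Nat.lt_or_ge p 5 with hp | hp
  · have hp4 : p ≠ 4 := by
      rintro rfl
      exact absurd (Fact.out : Nat.Prime 4) (by norm_num)
    have hp3 : p = 3 := by omega
    subst hp3
    rcases hk with rfl | hk
    · have hXu : ∀ i, X i = univ := by
        intro i
        rw [← Finset.card_eq_iff_eq_univ, hX i, ZMod.card]
      have hne : ∀ j, (Y j).Nonempty := by
        intro j
        rw [← Finset.card_pos, hY j]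
        omega
      choose y hy using hne
      refine ⟨Matrix.mulVec A⁻¹ y, fun i => by rw [hXu i]; exact mem_univ _, fun j => ?_⟩
      rw [Matrix.mulVec_mulVec, Matrix.mul_nonsing_inv A hA, Matrix.one_mulVec]
      exact hy j
    · have hk0 : k = 0 := by omega
      subst hk0
      have hYu : ∀ i, Y i = univ := by
        intro i
        rw [← Finset.card_eq_iff_eq_univ, hY i, ZMod.card]
      have hne : ∀ j, (X j).Nonempty := by
        intro j
        rw [← Finset.card_pos, hX j]
        omega
      choose x hx using hne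
      exact ⟨x, hx, fun j => by rw [hYu j]; exact mem_univ _⟩
  · rcases hk with rfl | hk
    · exact four p hp A hA X Y hX hY
    · have hA' : IsUnit (A⁻¹).det := Matrix.isUnit_nonsing_inv_det A hA
      obtain ⟨y, hy1, hy2⟩ := four p hp A⁻¹ hA' Y X
        (fun i => by rw [hY i]; omega) (fun j => by rw [hX j]; omega)
      refine ⟨Matrix.mulVec A⁻¹ y, hy2, fun j => ?_⟩
      rw [Matrix.mulVec_mulVec, Matrix.mul_nonsing_inv A hA, Matrix.one_mulVec]
      exact hy1 j

lemma small (p k : ℕ) [Fact p.Prime] (hk : k = 1 ∨ k + 3 = p) {ι : Type*} [Fintype ι]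
    [DecidableEq ι]
    (hι : Fintype.card ι ≤ 4) (M : Matrix ι ι (ZMod p)) (hM : IsUnit M.det)
    (X Y : ι → Finset (ZMod p)) (hX : ∀ i, (X i).card = k + 2)
    (hY : ∀ j, (Y j).card = p - k) :
    ∃ x : ι → ZMod p, (∀ i, x i ∈ X i) ∧ ∀ j, Matrix.mulVec M x j ∈ Y j := by
  classical
  rcases Nat.lt_or_ge (Fintype.card ι) 4 with h | h
  · exact ThreeByThree.small p k hk (by omega) M hM X Y hX hY
  · let e : ι ≃ Fin 4 := Fintype.equivFinOfCardEq (le_antisymm hι h)
    obtain ⟨x, hx1, hx2⟩ := fourAll p k hk (M.submatrix e.symm e.symm)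
      (by rw [Matrix.det_submatrix_equiv_self]; exact hM) (fun i => X (e.symm i))
      (fun j => Y (e.symm j)) (fun i => hX _) (fun j => hY _)
    refine ⟨fun i => x (e i), fun i => ?_, fun j => ?_⟩
    · have := hx1 (e i)
      simpa using this
    · have := hx2 (e j)
      rw [Matrix.submatrix_mulVec_equiv] at this
      simpa [Function.comp_def] using this

lemma tri (p k : ℕ) [Fact p.Prime] (hk : k = 1 ∨ k + 3 = p) {n : ℕ}
    (M : Matrix (Fin n) (Fin n) (ZMod p))
    (hM : IsUnit M.det) (b : Fin n → ℕ) (hb : ∀ t, (univ.filter (fun i => b i = t)).card ≤ 4)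
    (hT : M.BlockTriangular b)
    (X Y : Fin n → Finset (ZMod p)) (hX : ∀ i, (X i).card = k + 2)
    (hY : ∀ j, (Y j).card = p - k) :
    ∃ x : Fin n → ZMod p, (∀ i, x i ∈ X i) ∧ ∀ j, Matrix.mulVec M x j ∈ Y j := by
  classical
  have hblock : ∀ t, IsUnit (M.toSquareBlock b t).det := by
    intro t
    by_cases ht : t ∈ univ.image b
    · rw [hT.det] at hM
      exact isUnit_iff_ne_zero.2 (Finset.prod_ne_zero_iff.1 hM.ne_zero t ht)
    · have : IsEmpty {i // b i = t} := by
        refine ⟨fun i => ht ?_⟩
        exact Finset.mem_image.2 ⟨i.1, mem_univ _, i.2⟩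
      rw [Matrix.det_isEmpty]
      exact isUnit_one
  obtain ⟨N, hN⟩ : ∃ N, ∀ j, b j < N :=
    ⟨(univ.sup b) + 1, fun j => Nat.lt_succ_of_le (Finset.le_sup (f := b) (mem_univ j))⟩
  have claim : ∀ s : ℕ, ∃ x : Fin n → ZMod p, (∀ i, x i ∈ X i) ∧
      ∀ j, N ≤ b j + s → Matrix.mulVec M x j ∈ Y j := by
    intro s
    induction s with
    | zero =>
      have hne : ∀ i, (X i).Nonempty := by
        intro i
        rw [← Finset.card_pos, hX i]
        omega
      choose x hx using hne
      refine ⟨x, hx, fun j hj => ?_⟩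
      have := hN j
      omega
    | succ s ih =>
      obtain ⟨x, hx1, hx2⟩ := ih
      by_cases hs : N < s + 1
      · exact ⟨x, hx1, fun j _ => hx2 j (by omega)⟩
      obtain ⟨t, ht⟩ : ∃ t, t + (s + 1) = N := ⟨N - (s + 1), by omega⟩
      let w : Fin n → ZMod p := fun j => ∑ i, M j i * (if b i = t then 0 else x i)
      obtain ⟨z, hz1, hz2⟩ := small p k hk (ι := {i // b i = t})
        (by rw [Fintype.card_subtype]; exact hb t) (M.toSquareBlock b t) (hblock t)
        (fun i => X i.1) (fun j => (Y j.1).image (fun y => y - w j.1)) (fun i => hX _)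
        (fun j => by
          rw [Finset.card_image_of_injective _ (sub_left_injective)]
          exact hY _)
      refine ⟨fun i => if h : b i = t then z ⟨i, h⟩ else x i, fun i => ?_, fun j hj => ?_⟩
      · by_cases h : b i = t
        · simp only [h, dif_pos]
          exact hz1 ⟨i, h⟩
        · simp only [h, dif_neg, not_false_eq_true]
          exact hx1 i
      · rcases Nat.lt_or_ge t (b j) with hlt | hge
        · -- rows with larger label are unchanged
          have h1 : Matrix.mulVec M (fun i => if h : b i = t then z ⟨i, h⟩ else x i) j =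
              Matrix.mulVec M x j := by
            simp only [Matrix.mulVec, dotProduct]
            refine Finset.sum_congr rfl fun i _ => ?_
            by_cases h : b i = t
            · rw [hT (show b i < b j by omega), zero_mul, zero_mul]
            · rw [dif_neg h]
          rw [h1]
          exact hx2 j (by omega)
        · have hbj : b j = t := by omega
          have h2 := hz2 ⟨j, hbj⟩
          obtain ⟨y, hy1, hy2⟩ := Finset.mem_image.1 h2
          have h3 : Matrix.mulVec M (fun i => if h : b i = t then z ⟨i, h⟩ else x i) j =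
              Matrix.mulVec (M.toSquareBlock b t) z ⟨j, hbj⟩ + w j := by
            simp only [Matrix.mulVec, dotProduct, w]
            have h4 : ∑ i : {i // b i = t}, M.toSquareBlock b t ⟨j, hbj⟩ i * z i =
                ∑ i, M j i * (if h : b i = t then z ⟨i, h⟩ else 0) := by
              have h5 : ∑ i, M j i * (if h : b i = t then z ⟨i, h⟩ else 0) =
                  ∑ i ∈ univ.filter (fun i => b i = t),
                    M j i * (if h : b i = t then z ⟨i, h⟩ else 0) := by
                refine (Finset.sum_filter_of_ne fun i _ hi => ?_).symm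
                by_contra hbi
                exact hi (by rw [dif_neg hbi, mul_zero])
              rw [h5, Finset.sum_subtype (p := fun i => b i = t) _ (by simp)]
              refine Finset.sum_congr rfl fun i _ => ?_
              rw [dif_pos i.2]
              rfl
            rw [h4, ← Finset.sum_add_distrib]
            refine Finset.sum_congr rfl fun i _ => ?_
            by_cases h : b i = t
            · simp [h]
            · simp [h]
          rw [h3, ← hy2]
          simpa using hy1
  obtain ⟨x, hx1, hx2⟩ := claim N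
  exact ⟨x, hx1, fun j => hx2 j (by omega)⟩

theorem result : ∀ (p : ℕ), p.Prime → ∀ (n : ℕ) (A : Matrix (Fin n) (Fin n) (ZMod p)),
    IsUnit A.det →
    ∀ (σ τ : Equiv.Perm (Fin n)) (b : Fin n → ℕ),
      (∀ t, (univ.filter (fun i => b i = t)).card ≤ 4) →
      (A.submatrix σ τ).BlockTriangular b →
    ∀ (k : ℕ), (k = 1 ∨ k + 3 = p) →
    ∀ (X Y : Fin n → Finset (ZMod p)), (∀ i, (X i).card = k + 2) →
      (∀ j, (Y j).card = p - k) →
      ∃ x : Fin n → ZMod p, (∀ i, x i ∈ X i) ∧ ∀ j, Matrix.mulVec A x j ∈ Y j := by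
  intro p hp n A hA σ τ b hb hT k hk X Y hX hY
  have : Fact p.Prime := ⟨hp⟩
  have hU : IsUnit (A.submatrix σ τ).det := by
    rw [← Matrix.isUnit_iff_isUnit_det] at hA ⊢
    exact (Matrix.isUnit_submatrix_equiv σ τ).2 hA
  obtain ⟨x, hx1, hx2⟩ := tri p k hk (A.submatrix σ τ) hU b hb hT (fun i => X (τ i))
    (fun j => Y (σ j)) (fun i => hX _) (fun j => hY _)
  refine ⟨fun i => x (τ.symm i), fun i => ?_, fun j => ?_⟩
  · have := hx1 (τ.symm i)
    simpa using this
  · have := hx2 (σ.symm j)
    rw [Matrix.submatrix_mulVec_equiv] at this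
    simpa [Function.comp_def] using this

end Pool.Agent.Results.MP_8e2770_co.FourByFour
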