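import Pool.Agent.Results.MP_8e2770_co.TwoByTwo

set_option autoImplicit false

open Finset

namespace Pool.Agent.Results.MP_8e2770_co.SmallBlocks

lemma small (p k : ℕ) [Fact p.Prime] {ι : Type*} [Fintype ι] [DecidableEq ι]
    (hι : Fintype.card ι ≤ 2) (M : Matrix ι ι (ZMod p)) (hM : IsUnit M.det)
    (X Y : ι → Finset (ZMod p)) (hX : ∀ i, (X i).card = k + 2)
    (hY : ∀ j, (Y j).card = p - k) :
    ∃ x : ι → ZMod p, (∀ i, x i ∈ X i) ∧ ∀ j, Matrix.mulVec M x j ∈ Y j := by
  classical
  have h012 : Fintype.card ι = 0 ∨ Fintype.card ι = 1 ∨ Fintype.card ι = 2 := by omega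
  rcases h012 with h | h | h
  · have := Fintype.card_eq_zero_iff.1 h
    exact ⟨fun i => isEmptyElim i, fun i => isEmptyElim i, fun i => isEmptyElim i⟩
  · obtain ⟨o, ho⟩ := Fintype.card_eq_one_iff.1 h
    have : Unique ι := ⟨⟨o⟩, ho⟩
    have hkp : k + 2 ≤ p := by
      have := Finset.card_le_univ (X default)
      rwa [hX, ZMod.card] at this
    rw [Matrix.det_unique] at hM
    have hne : M default default ≠ 0 := hM.ne_zero
    have hc : ((X default).image (fun t => M default default * t)).card = k + 2 := by
      rw [Finset.card_image_of_injective _ (mul_right_injective₀ hne), hX]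
    have hnd : ¬ Disjoint ((X default).image (fun t => M default default * t)) (Y default) := by
      intro hd
      have h1 := Finset.card_union_of_disjoint hd
      have h2 := Finset.card_le_univ
        ((X default).image (fun t => M default default * t) ∪ Y default)
      rw [h1, hc, hY, ZMod.card] at h2
      omega
    obtain ⟨y, hy1, hy2⟩ := Finset.not_disjoint_iff.1 hnd
    obtain ⟨t, ht, hty⟩ := Finset.mem_image.1 hy1
    refine ⟨fun _ => t, fun i => ?_, fun j => ?_⟩
    · rw [Unique.eq_default i]; exact ht
    · rw [Unique.eq_default j]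
      simp only [Matrix.mulVec, dotProduct, Fintype.sum_unique]
      rw [hty]
      exact hy2
  · let e : ι ≃ Fin 2 := Fintype.equivFinOfCardEq h
    obtain ⟨x, hx1, hx2⟩ := TwoByTwo.result p Fact.out (M.submatrix e.symm e.symm)
      (by rw [Matrix.det_submatrix_equiv_self]; exact hM) k (fun i => X (e.symm i))
      (fun j => Y (e.symm j)) (fun i => hX _) (fun j => hY _)
    refine ⟨fun i => x (e i), fun i => ?_, fun j => ?_⟩
    · have := hx1 (e i)
      simpa using this
    · have := hx2 (e j)
      rw [Matrix.submatrix_mulVec_equiv] at this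
      simpa [Function.comp_def] using this

lemma tri (p k : ℕ) [Fact p.Prime] {n : ℕ} (M : Matrix (Fin n) (Fin n) (ZMod p))
    (hM : IsUnit M.det) (b : Fin n → ℕ) (hb : ∀ t, (univ.filter (fun i => b i = t)).card ≤ 2)
    (hT : M.BlockTriangular b)
    (X Y : Fin n → Finset (ZMod p)) (hX : ∀ i, (X i).card = k + 2)
    (hY : ∀ j, (Y j).card = p - k) :
    ∃ x : Fin n → ZMod p, (∀ i, x i ∈ X i) ∧ ∀ j, Matrix.mulVec M x j ∈ Y j := by
  classical
  have hblock : ∀ t, IsUnit (M.toSquareBlock b t).det := by
    intro t
    by_cases ht : t ∈ univ.image b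
    · rw [hT.det] at hM
      exact isUnit_iff_ne_zero.2 (Finset.prod_ne_zero_iff.1 hM.ne_zero t ht)
    · have : IsEmpty {i // b i = t} := by
        refine ⟨fun i => ht ?_⟩
        exact Finset.mem_image.2 ⟨i.1, mem_univ _, i.2⟩
      rw [Matrix.det_isEmpty]
      exact isUnit_one
  obtain ⟨N, hN⟩ : ∃ N, ∀ j, b j < N :=
    ⟨(univ.sup b) + 1, fun j => Nat.lt_succ_of_le (Finset.le_sup (f := b) (mem_univ j))⟩
  have claim : ∀ s : ℕ, ∃ x : Fin n → ZMod p, (∀ i, x i ∈ X i) ∧
      ∀ j, N ≤ b j + s → Matrix.mulVec M x j ∈ Y j := by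
    intro s
    induction s with
    | zero =>
      have hne : ∀ i, (X i).Nonempty := by
        intro i
        rw [← Finset.card_pos, hX i]
        omega
      choose x hx using hne
      refine ⟨x, hx, fun j hj => ?_⟩
      have := hN j
      omega
    | succ s ih =>
      obtain ⟨x, hx1, hx2⟩ := ih
      by_cases hs : N < s + 1
      · exact ⟨x, hx1, fun j _ => hx2 j (by omega)⟩
      obtain ⟨t, ht⟩ : ∃ t, t + (s + 1) = N := ⟨N - (s + 1), by omega⟩
      let w : Fin n → ZMod p := fun j => ∑ i, M j i * (if b i = t then 0 else x i)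
      obtain ⟨z, hz1, hz2⟩ := small p k (ι := {i // b i = t})
        (by rw [Fintype.card_subtype]; exact hb t) (M.toSquareBlock b t) (hblock t)
        (fun i => X i.1) (fun j => (Y j.1).image (fun y => y - w j.1)) (fun i => hX _)
        (fun j => by
          rw [Finset.card_image_of_injective _ (sub_left_injective)]
          exact hY _)
      refine ⟨fun i => if h : b i = t then z ⟨i, h⟩ else x i, fun i => ?_, fun j hj => ?_⟩
      · by_cases h : b i = t
        · simp only [h, dif_pos]
          exact hz1 ⟨i, h⟩
        · simp only [h, dif_neg, not_false_eq_true]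
          exact hx1 i
      · rcases Nat.lt_or_ge t (b j) with hlt | hge
        · -- rows with larger label are unchanged
          have h1 : Matrix.mulVec M (fun i => if h : b i = t then z ⟨i, h⟩ else x i) j =
              Matrix.mulVec M x j := by
            simp only [Matrix.mulVec, dotProduct]
            refine Finset.sum_congr rfl fun i _ => ?_
            by_cases h : b i = t
            · rw [hT (show b i < b j by omega), zero_mul, zero_mul]
            · rw [dif_neg h]
          rw [h1]
          exact hx2 j (by omega)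
        · have hbj : b j = t := by omega
          have h2 := hz2 ⟨j, hbj⟩
          obtain ⟨y, hy1, hy2⟩ := Finset.mem_image.1 h2
          have h3 : Matrix.mulVec M (fun i => if h : b i = t then z ⟨i, h⟩ else x i) j =
              Matrix.mulVec (M.toSquareBlock b t) z ⟨j, hbj⟩ + w j := by
            simp only [Matrix.mulVec, dotProduct, w]
            have h4 : ∑ i : {i // b i = t}, M.toSquareBlock b t ⟨j, hbj⟩ i * z i =
                ∑ i, M j i * (if h : b i = t then z ⟨i, h⟩ else 0) := by
              have h5 : ∑ i, M j i * (if h : b i = t then z ⟨i, h⟩ else 0) =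
                  ∑ i ∈ univ.filter (fun i => b i = t),
                    M j i * (if h : b i = t then z ⟨i, h⟩ else 0) := by
                refine (Finset.sum_filter_of_ne fun i _ hi => ?_).symm
                by_contra hbi
                exact hi (by rw [dif_neg hbi, mul_zero])
              rw [h5, Finset.sum_subtype (p := fun i => b i = t) _ (by simp)]
              refine Finset.sum_congr rfl fun i _ => ?_
              rw [dif_pos i.2]
              rfl
            rw [h4, ← Finset.sum_add_distrib]
            refine Finset.sum_congr rfl fun i _ => ?_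
            by_cases h : b i = t
            · simp [h]
            · simp [h]
          rw [h3, ← hy2]
          simpa using hy1
  obtain ⟨x, hx1, hx2⟩ := claim N
  exact ⟨x, hx1, fun j => hx2 j (by omega)⟩

theorem result : ∀ (p : ℕ), p.Prime → ∀ (n : ℕ) (A : Matrix (Fin n) (Fin n) (ZMod p)),
    IsUnit A.det →
    ∀ (σ τ : Equiv.Perm (Fin n)) (b : Fin n → ℕ),
      (∀ t, (univ.filter (fun i => b i = t)).card ≤ 2) →
      (A.submatrix σ τ).BlockTriangular b →
    ∀ (k : ℕ) (X Y : Fin n → Finset (ZMod p)), (∀ i, (X i).card = k + 2) →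
      (∀ j, (Y j).card = p - k) →
      ∃ x : Fin n → ZMod p, (∀ i, x i ∈ X i) ∧ ∀ j, Matrix.mulVec A x j ∈ Y j := by
  intro p hp n A hA σ τ b hb hT k X Y hX hY
  have : Fact p.Prime := ⟨hp⟩
  have hU : IsUnit (A.submatrix σ τ).det := by
    rw [← Matrix.isUnit_iff_isUnit_det] at hA ⊢
    exact (Matrix.isUnit_submatrix_equiv σ τ).2 hA
  obtain ⟨x, hx1, hx2⟩ := tri p k (A.submatrix σ τ) hU b hb hT (fun i => X (τ i))
    (fun j => Y (σ j)) (fun i => hX _) (fun j => hY _)
  refine ⟨fun i => x (τ.symm i), fun i => ?_, fun j => ?_⟩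
  · have := hx1 (τ.symm i)
    simpa using this
  · have := hx2 (σ.symm j)
    rw [Matrix.submatrix_mulVec_equiv] at this
    simpa [Function.comp_def] using this

end Pool.Agent.Results.MP_8e2770_co.SmallBlocks
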