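import Pool.Agent.Results.MP_8e2770_co.SmallBlocks

set_option autoImplicit false

open Finset

namespace Pool.Agent.Results.MP_8e2770_co.ThreeByThree

variable {F : Type*} [Field F]

lemma coefA (a b c u a' b' c' u' a'' b'' c'' u'' : F) (S T U : Finset F)
    (hS : S.card = 3) (hT : T.card = 3) (hU : U.card = 3)
    (H : ∀ x ∈ S, ∀ y ∈ T, ∀ z ∈ U, (a * x + b * y + c * z - u) * (a' * x + b' * y + c' * z - u') *
      (a'' * x + b'' * y + c'' * z - u'') = 0) :
    a * a' * b'' + a * b' * a'' + b * a' * a'' = 0 := by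
  classical
  obtain ⟨x0, x1, x2, h01, h02, h12, rfl⟩ := Finset.card_eq_three.1 hS
  obtain ⟨y0, y1, y2, k01, k02, k12, rfl⟩ := Finset.card_eq_three.1 hT
  obtain ⟨z0, z1, z2, l01, l02, l12, rfl⟩ := Finset.card_eq_three.1 hU
  have g00 := H x0 (by simp) y0 (by simp) z0 (by simp)
  have g10 := H x1 (by simp) y0 (by simp) z0 (by simp)
  have g20 := H x2 (by simp) y0 (by simp) z0 (by simp)
  have g01 := H x0 (by simp) y1 (by simp) z0 (by simp)
  have g11 := H x1 (by simp) y1 (by simp) z0 (by simp)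
  have g21 := H x2 (by simp) y1 (by simp) z0 (by simp)
  have key : ((x0 - x1) * (x0 - x2) * (x1 - x2) * (y0 - y1)) *
      (a * a' * b'' + a * b' * a'' + b * a' * a'') = 0 := by
    linear_combination (x1 - x2) * g00 - (x0 - x2) * g10 + (x0 - x1) * g20 -
      (x1 - x2) * g01 + (x0 - x2) * g11 - (x0 - x1) * g21
  refine (mul_eq_zero.1 key).resolve_left ?_
  exact mul_ne_zero (mul_ne_zero (mul_ne_zero (sub_ne_zero.2 h01) (sub_ne_zero.2 h02))
    (sub_ne_zero.2 h12)) (sub_ne_zero.2 k01)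

lemma coefB (a b c u a' b' c' u' a'' b'' c'' u'' : F) (S T U : Finset F)
    (hS : S.card = 3) (hT : T.card = 3) (hU : U.card = 3)
    (H : ∀ x ∈ S, ∀ y ∈ T, ∀ z ∈ U, (a * x + b * y + c * z - u) * (a' * x + b' * y + c' * z - u') *
      (a'' * x + b'' * y + c'' * z - u'') = 0) :
    a * b' * c'' + a * c' * b'' + b * a' * c'' + b * c' * a'' + c * a' * b'' + c * b' * a'' =
      0 := by
  classical
  obtain ⟨x0, x1, x2, h01, h02, h12, rfl⟩ := Finset.card_eq_three.1 hS
  obtain ⟨y0, y1, y2, k01, k02, k12, rfl⟩ := Finset.card_eq_three.1 hT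
  obtain ⟨z0, z1, z2, l01, l02, l12, rfl⟩ := Finset.card_eq_three.1 hU
  have g000 := H x0 (by simp) y0 (by simp) z0 (by simp)
  have g100 := H x1 (by simp) y0 (by simp) z0 (by simp)
  have g010 := H x0 (by simp) y1 (by simp) z0 (by simp)
  have g110 := H x1 (by simp) y1 (by simp) z0 (by simp)
  have g001 := H x0 (by simp) y0 (by simp) z1 (by simp)
  have g101 := H x1 (by simp) y0 (by simp) z1 (by simp)
  have g011 := H x0 (by simp) y1 (by simp) z1 (by simp)
  have g111 := H x1 (by simp) y1 (by simp) z1 (by simp)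
  have key : ((x0 - x1) * (y0 - y1) * (z0 - z1)) *
      (a * b' * c'' + a * c' * b'' + b * a' * c'' + b * c' * a'' + c * a' * b'' + c * b' * a'') =
        0 := by
    linear_combination g000 - g100 - g010 + g110 - g001 + g101 + g011 - g111
  refine (mul_eq_zero.1 key).resolve_left ?_
  exact mul_ne_zero (mul_ne_zero (sub_ne_zero.2 h01) (sub_ne_zero.2 k01)) (sub_ne_zero.2 l01)

lemma col (h2 : (2 : F) ≠ 0) (h3 : (3 : F) ≠ 0) (a b c a' b' c' a'' b'' c'' β γ : F)
    (hf : ∀ x y z : F, (a * x + b * y + c * z) * (a' * x + b' * y + c' * z) *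
      (a'' * x + b'' * y + c'' * z) = a * a' * a'' * x ^ 3 + β * y ^ 3 + γ * z ^ 3)
    (x y z : F) (h01 : (a * x + b * y + c * z) * (a' * x + b' * y + c' * z) = 0)
    (h02 : (a * x + b * y + c * z) * (a'' * x + b'' * y + c'' * z) = 0)
    (h12 : (a' * x + b' * y + c' * z) * (a'' * x + b'' * y + c'' * z) = 0)
    (hα : a * a' * a'' ≠ 0) : x = 0 := by
  have key : (2 * 3 * (a * a' * a'')) * x ^ 2 = 0 := by
    linear_combination hf (x - 1) y z - hf (x + 1) y z + 2 * a'' * h01 + 2 * a' * h02 +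
      2 * a * h12
  have := (mul_eq_zero.1 key).resolve_left (mul_ne_zero (mul_ne_zero h2 h3) hα)
  exact pow_eq_zero_iff two_ne_zero |>.1 this

lemma alg (h2 : (2 : F) ≠ 0) (h3 : (3 : F) ≠ 0) (A : Matrix (Fin 3) (Fin 3) F)
    (hA : IsUnit A.det)
    (hf : ∀ x y z : F, (A 0 0 * x + A 0 1 * y + A 0 2 * z) * (A 1 0 * x + A 1 1 * y + A 1 2 * z) *
      (A 2 0 * x + A 2 1 * y + A 2 2 * z) = A 0 0 * A 1 0 * A 2 0 * x ^ 3 +
        A 0 1 * A 1 1 * A 2 1 * y ^ 3 + A 0 2 * A 1 2 * A 2 2 * z ^ 3) : False := by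
  have hAB := Matrix.mul_nonsing_inv A hA
  have hBA := Matrix.nonsing_inv_mul A hA
  set B := A⁻¹ with hB
  have e : ∀ i j, A i 0 * B 0 j + A i 1 * B 1 j + A i 2 * B 2 j = (1 : Matrix (Fin 3) (Fin 3) F) i j := by
    intro i j
    rw [← hAB, Matrix.mul_apply, Fin.sum_univ_three]
  have e' : ∀ i j, B i 0 * A 0 j + B i 1 * A 1 j + B i 2 * A 2 j = (1 : Matrix (Fin 3) (Fin 3) F) i j := by
    intro i j
    rw [← hBA, Matrix.mul_apply, Fin.sum_univ_three]
  have d : ∀ i i' j : Fin 3, i ≠ i' → (1 : Matrix (Fin 3) (Fin 3) F) i j * (1 : Matrix (Fin 3) (Fin 3) F) i' j = 0 := by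
    intro i i' j h
    by_cases hij : i = j
    · subst hij
      rw [Matrix.one_apply_ne (Ne.symm h), mul_zero]
    · rw [Matrix.one_apply_ne hij, zero_mul]
  have a0 : A 0 0 * A 1 0 * A 2 0 = 0 := by
    by_contra hα
    have hz : ∀ j, B 0 j = 0 := by
      intro j
      refine col h2 h3 (A 0 0) (A 0 1) (A 0 2) (A 1 0) (A 1 1) (A 1 2) (A 2 0) (A 2 1) (A 2 2)
        _ _ hf (B 0 j) (B 1 j) (B 2 j) ?_ ?_ ?_ hα
      · rw [e, e]; exact d 0 1 j (by decide)
      · rw [e, e]; exact d 0 2 j (by decide)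
      · rw [e, e]; exact d 1 2 j (by decide)
    have := e' 0 0
    rw [hz, hz, hz] at this
    simp at this
  have a1 : A 0 1 * A 1 1 * A 2 1 = 0 := by
    by_contra hα
    have hz : ∀ j, B 1 j = 0 := by
      intro j
      refine col h2 h3 (A 0 1) (A 0 0) (A 0 2) (A 1 1) (A 1 0) (A 1 2) (A 2 1) (A 2 0) (A 2 2)
        (A 0 0 * A 1 0 * A 2 0) (A 0 2 * A 1 2 * A 2 2)
        (fun x y z => by linear_combination hf y x z) (B 1 j) (B 0 j) (B 2 j) ?_ ?_ ?_ hα
      · linear_combination (e 0 j) * (A 1 0 * B 0 j + A 1 1 * B 1 j + A 1 2 * B 2 j) +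
          (1 : Matrix (Fin 3) (Fin 3) F) 0 j * e 1 j + d 0 1 j (by decide)
      · linear_combination (e 0 j) * (A 2 0 * B 0 j + A 2 1 * B 1 j + A 2 2 * B 2 j) +
          (1 : Matrix (Fin 3) (Fin 3) F) 0 j * e 2 j + d 0 2 j (by decide)
      · linear_combination (e 1 j) * (A 2 0 * B 0 j + A 2 1 * B 1 j + A 2 2 * B 2 j) +
          (1 : Matrix (Fin 3) (Fin 3) F) 1 j * e 2 j + d 1 2 j (by decide)
    have := e' 1 1
    rw [hz, hz, hz] at this
    simp at this
  have a2 : A 0 2 * A 1 2 * A 2 2 = 0 := by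
    by_contra hα
    have hz : ∀ j, B 2 j = 0 := by
      intro j
      refine col h2 h3 (A 0 2) (A 0 0) (A 0 1) (A 1 2) (A 1 0) (A 1 1) (A 2 2) (A 2 0) (A 2 1)
        (A 0 0 * A 1 0 * A 2 0) (A 0 1 * A 1 1 * A 2 1)
        (fun x y z => by linear_combination hf y z x) (B 2 j) (B 0 j) (B 1 j) ?_ ?_ ?_ hα
      · linear_combination (e 0 j) * (A 1 0 * B 0 j + A 1 1 * B 1 j + A 1 2 * B 2 j) +
          (1 : Matrix (Fin 3) (Fin 3) F) 0 j * e 1 j + d 0 1 j (by decide)
      · linear_combination (e 0 j) * (A 2 0 * B 0 j + A 2 1 * B 1 j + A 2 2 * B 2 j) +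
          (1 : Matrix (Fin 3) (Fin 3) F) 0 j * e 2 j + d 0 2 j (by decide)
      · linear_combination (e 1 j) * (A 2 0 * B 0 j + A 2 1 * B 1 j + A 2 2 * B 2 j) +
          (1 : Matrix (Fin 3) (Fin 3) F) 1 j * e 2 j + d 1 2 j (by decide)
    have := e' 2 2
    rw [hz, hz, hz] at this
    simp at this
  have hlast := hf (B 0 0 + B 0 1 + B 0 2) (B 1 0 + B 1 1 + B 1 2) (B 2 0 + B 2 1 + B 2 2)
  rw [a0, a1, a2] at hlast
  have r : ∀ i, A i 0 * (B 0 0 + B 0 1 + B 0 2) + A i 1 * (B 1 0 + B 1 1 + B 1 2) +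
      A i 2 * (B 2 0 + B 2 1 + B 2 2) = 1 := by
    intro i
    have hs : (1 : Matrix (Fin 3) (Fin 3) F) i 0 + (1 : Matrix (Fin 3) (Fin 3) F) i 1 +
        (1 : Matrix (Fin 3) (Fin 3) F) i 2 = 1 := by
      rw [Matrix.one_apply, Matrix.one_apply, Matrix.one_apply]
      fin_cases i <;> simp
    linear_combination e i 0 + e i 1 + e i 2 + hs
  rw [r, r, r] at hlast
  simp at hlast

lemma three (p : ℕ) [Fact p.Prime] (hp : 5 ≤ p) (A : Matrix (Fin 3) (Fin 3) (ZMod p))
    (hA : IsUnit A.det) (X Y : Fin 3 → Finset (ZMod p)) (hX : ∀ i, (X i).card = 3)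
    (hY : ∀ j, (Y j).card = p - 1) :
    ∃ x : Fin 3 → ZMod p, (∀ i, x i ∈ X i) ∧ ∀ j, Matrix.mulVec A x j ∈ Y j := by
  classical
  have hne : ∀ m : ℕ, 0 < m → m < p → ((m : ℕ) : ZMod p) ≠ 0 := by
    intro m h1 h2 h
    have := (ZMod.natCast_eq_zero_iff m p).1 h
    exact absurd (Nat.le_of_dvd h1 this) (by omega)
  have h2 : (2 : ZMod p) ≠ 0 := by exact_mod_cast hne 2 (by omega) (by omega)
  have h3 : (3 : ZMod p) ≠ 0 := by exact_mod_cast hne 3 (by omega) (by omega)
  by_contra hcon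
  push Not at hcon
  have hZ : ∀ j, ∃ z, (Y j)ᶜ = {z} := by
    intro j
    apply Finset.card_eq_one.1
    rw [Finset.card_compl, ZMod.card, hY j]
    omega
  choose u hu using hZ
  have H : ∀ x ∈ X 0, ∀ y ∈ X 1, ∀ z ∈ X 2, (A 0 0 * x + A 0 1 * y + A 0 2 * z - u 0) *
      (A 1 0 * x + A 1 1 * y + A 1 2 * z - u 1) *
      (A 2 0 * x + A 2 1 * y + A 2 2 * z - u 2) = 0 := by
    intro x hx y hy z hz
    obtain ⟨j, hj⟩ := hcon ![x, y, z] (by
      intro i
      fin_cases i
      · exact hx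
      · exact hy
      · exact hz)
    have hj' : Matrix.mulVec A ![x, y, z] j ∈ (Y j)ᶜ := Finset.mem_compl.2 hj
    rw [hu j, Finset.mem_singleton] at hj'
    have hm : Matrix.mulVec A ![x, y, z] j = A j 0 * x + A j 1 * y + A j 2 * z := by
      simp [Matrix.mulVec, dotProduct, Fin.sum_univ_three]
    rw [hm] at hj'
    fin_cases j
    · simp only [Fin.zero_eta, Fin.isValue] at hj'
      rw [hj']; ring
    · simp only [Fin.mk_one, Fin.isValue] at hj'
      rw [hj']; ring
    · simp only [Fin.reduceFinMk, Fin.isValue] at hj'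
      rw [hj']; ring
  have c1 := coefA _ _ _ _ _ _ _ _ _ _ _ _ _ _ _ (hX 0) (hX 1) (hX 2) H
  have c2 := coefA (A 0 0) (A 0 2) (A 0 1) (u 0) (A 1 0) (A 1 2) (A 1 1) (u 1) (A 2 0) (A 2 2)
    (A 2 1) (u 2) _ _ _ (hX 0) (hX 2) (hX 1)
    (fun x hx y hy z hz => by linear_combination H x hx z hz y hy)
  have c3 := coefA (A 0 1) (A 0 0) (A 0 2) (u 0) (A 1 1) (A 1 0) (A 1 2) (u 1) (A 2 1) (A 2 0)
    (A 2 2) (u 2) _ _ _ (hX 1) (hX 0) (hX 2)
    (fun x hx y hy z hz => by linear_combination H y hy x hx z hz)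
  have c4 := coefA (A 0 1) (A 0 2) (A 0 0) (u 0) (A 1 1) (A 1 2) (A 1 0) (u 1) (A 2 1) (A 2 2)
    (A 2 0) (u 2) _ _ _ (hX 1) (hX 2) (hX 0)
    (fun x hx y hy z hz => by linear_combination H z hz x hx y hy)
  have c5 := coefA (A 0 2) (A 0 0) (A 0 1) (u 0) (A 1 2) (A 1 0) (A 1 1) (u 1) (A 2 2) (A 2 0)
    (A 2 1) (u 2) _ _ _ (hX 2) (hX 0) (hX 1)
    (fun x hx y hy z hz => by linear_combination H y hy z hz x hx)
  have c6 := coefA (A 0 2) (A 0 1) (A 0 0) (u 0) (A 1 2) (A 1 1) (A 1 0) (u 1) (A 2 2) (A 2 1)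
    (A 2 0) (u 2) _ _ _ (hX 2) (hX 1) (hX 0)
    (fun x hx y hy z hz => by linear_combination H z hz y hy x hx)
  have c7 := coefB _ _ _ _ _ _ _ _ _ _ _ _ _ _ _ (hX 0) (hX 1) (hX 2) H
  refine alg h2 h3 A hA fun x y z => ?_
  linear_combination (x ^ 2 * y) * c1 + (x ^ 2 * z) * c2 + (y ^ 2 * x) * c3 + (y ^ 2 * z) * c4 +
    (z ^ 2 * x) * c5 + (z ^ 2 * y) * c6 + (x * y * z) * c7

lemma threeAll (p k : ℕ) [Fact p.Prime] (hk : k = 1 ∨ k + 3 = p)
    (A : Matrix (Fin 3) (Fin 3) (ZMod p))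
    (hA : IsUnit A.det) (X Y : Fin 3 → Finset (ZMod p)) (hX : ∀ i, (X i).card = k + 2)
    (hY : ∀ j, (Y j).card = p - k) :
    ∃ x : Fin 3 → ZMod p, (∀ i, x i ∈ X i) ∧ ∀ j, Matrix.mulVec A x j ∈ Y j := by
  classical
  have hkp : k + 2 ≤ p := by
    have := Finset.card_le_univ (X 0)
    rwa [hX, ZMod.card] at this
  rcases Nat.lt_or_ge p 5 with hp | hp
  · have hp4 : p ≠ 4 := by
      rintro rfl
      exact absurd (Fact.out : Nat.Prime 4) (by norm_num)
    have hp3 : p = 3 := by omega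
    subst hp3
    rcases hk with rfl | hk
    · have hXu : ∀ i, X i = univ := by
        intro i
        rw [← Finset.card_eq_iff_eq_univ, hX i, ZMod.card]
      have hne : ∀ j, (Y j).Nonempty := by
        intro j
        rw [← Finset.card_pos, hY j]
        omega
      choose y hy using hne
      refine ⟨Matrix.mulVec A⁻¹ y, fun i => by rw [hXu i]; exact mem_univ _, fun j => ?_⟩
      rw [Matrix.mulVec_mulVec, Matrix.mul_nonsing_inv A hA, Matrix.one_mulVec]
      exact hy j
    · have hk0 : k = 0 := by omega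
      subst hk0
      have hYu : ∀ i, Y i = univ := by
        intro i
        rw [← Finset.card_eq_iff_eq_univ, hY i, ZMod.card]
      have hne : ∀ j, (X j).Nonempty := by
        intro j
        rw [← Finset.card_pos, hX j]
        omega
      choose x hx using hne
      exact ⟨x, hx, fun j => by rw [hYu j]; exact mem_univ _⟩
  · rcases hk with rfl | hk
    · exact three p hp A hA X Y hX hY
    · have hA' : IsUnit (A⁻¹).det := Matrix.isUnit_nonsing_inv_det A hA
      obtain ⟨y, hy1, hy2⟩ := three p hp A⁻¹ hA' Y X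
        (fun i => by rw [hY i]; omega) (fun j => by rw [hX j]; omega)
      refine ⟨Matrix.mulVec A⁻¹ y, hy2, fun j => ?_⟩
      rw [Matrix.mulVec_mulVec, Matrix.mul_nonsing_inv A hA, Matrix.one_mulVec]
      exact hy1 j

lemma small (p k : ℕ) [Fact p.Prime] (hk : k = 1 ∨ k + 3 = p) {ι : Type*} [Fintype ι]
    [DecidableEq ι]
    (hι : Fintype.card ι ≤ 3) (M : Matrix ι ι (ZMod p)) (hM : IsUnit M.det)
    (X Y : ι → Finset (ZMod p)) (hX : ∀ i, (X i).card = k + 2)
    (hY : ∀ j, (Y j).card = p - k) :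
    ∃ x : ι → ZMod p, (∀ i, x i ∈ X i) ∧ ∀ j, Matrix.mulVec M x j ∈ Y j := by
  classical
  rcases Nat.lt_or_ge (Fintype.card ι) 3 with h | h
  · exact SmallBlocks.small p k (by omega) M hM X Y hX hY
  · let e : ι ≃ Fin 3 := Fintype.equivFinOfCardEq (le_antisymm hι h)
    obtain ⟨x, hx1, hx2⟩ := threeAll p k hk (M.submatrix e.symm e.symm)
      (by rw [Matrix.det_submatrix_equiv_self]; exact hM) (fun i => X (e.symm i))
      (fun j => Y (e.symm j)) (fun i => hX _) (fun j => hY _)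
    refine ⟨fun i => x (e i), fun i => ?_, fun j => ?_⟩
    · have := hx1 (e i)
      simpa using this
    · have := hx2 (e j)
      rw [Matrix.submatrix_mulVec_equiv] at this
      simpa [Function.comp_def] using this

lemma tri (p k : ℕ) [Fact p.Prime] (hk : k = 1 ∨ k + 3 = p) {n : ℕ}
    (M : Matrix (Fin n) (Fin n) (ZMod p))
    (hM : IsUnit M.det) (b : Fin n → ℕ) (hb : ∀ t, (univ.filter (fun i => b i = t)).card ≤ 3)
    (hT : M.BlockTriangular b)
    (X Y : Fin n → Finset (ZMod p)) (hX : ∀ i, (X i).card = k + 2)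
    (hY : ∀ j, (Y j).card = p - k) :
    ∃ x : Fin n → ZMod p, (∀ i, x i ∈ X i) ∧ ∀ j, Matrix.mulVec M x j ∈ Y j := by
  classical
  have hblock : ∀ t, IsUnit (M.toSquareBlock b t).det := by
    intro t
    by_cases ht : t ∈ univ.image b
    · rw [hT.det] at hM
      exact isUnit_iff_ne_zero.2 (Finset.prod_ne_zero_iff.1 hM.ne_zero t ht)
    · have : IsEmpty {i // b i = t} := by
        refine ⟨fun i => ht ?_⟩
        exact Finset.mem_image.2 ⟨i.1, mem_univ _, i.2⟩
      rw [Matrix.det_isEmpty]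
      exact isUnit_one
  obtain ⟨N, hN⟩ : ∃ N, ∀ j, b j < N :=
    ⟨(univ.sup b) + 1, fun j => Nat.lt_succ_of_le (Finset.le_sup (f := b) (mem_univ j))⟩
  have claim : ∀ s : ℕ, ∃ x : Fin n → ZMod p, (∀ i, x i ∈ X i) ∧
      ∀ j, N ≤ b j + s → Matrix.mulVec M x j ∈ Y j := by
    intro s
    induction s with
    | zero =>
      have hne : ∀ i, (X i).Nonempty := by
        intro i
        rw [← Finset.card_pos, hX i]
        omega
      choose x hx using hne
      refine ⟨x, hx, fun j hj => ?_⟩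
      have := hN j
      omega
    | succ s ih =>
      obtain ⟨x, hx1, hx2⟩ := ih
      by_cases hs : N < s + 1
      · exact ⟨x, hx1, fun j _ => hx2 j (by omega)⟩
      obtain ⟨t, ht⟩ : ∃ t, t + (s + 1) = N := ⟨N - (s + 1), by omega⟩
      let w : Fin n → ZMod p := fun j => ∑ i, M j i * (if b i = t then 0 else x i)
      obtain ⟨z, hz1, hz2⟩ := small p k hk (ι := {i // b i = t})
        (by rw [Fintype.card_subtype]; exact hb t) (M.toSquareBlock b t) (hblock t)
        (fun i => X i.1) (fun j => (Y j.1).image (fun y => y - w j.1)) (fun i => hX _)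
        (fun j => by
          rw [Finset.card_image_of_injective _ (sub_left_injective)]
          exact hY _)
      refine ⟨fun i => if h : b i = t then z ⟨i, h⟩ else x i, fun i => ?_, fun j hj => ?_⟩
      · by_cases h : b i = t
        · simp only [h, dif_pos]
          exact hz1 ⟨i, h⟩
        · simp only [h, dif_neg, not_false_eq_true]
          exact hx1 i
      · rcases Nat.lt_or_ge t (b j) with hlt | hge
        · -- rows with larger label are unchanged
          have h1 : Matrix.mulVec M (fun i => if h : b i = t then z ⟨i, h⟩ else x i) j =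
              Matrix.mulVec M x j := by
            simp only [Matrix.mulVec, dotProduct]
            refine Finset.sum_congr rfl fun i _ => ?_
            by_cases h : b i = t
            · rw [hT (show b i < b j by omega), zero_mul, zero_mul]
            · rw [dif_neg h]
          rw [h1]
          exact hx2 j (by omega)
        · have hbj : b j = t := by omega
          have h2 := hz2 ⟨j, hbj⟩
          obtain ⟨y, hy1, hy2⟩ := Finset.mem_image.1 h2
          have h3 : Matrix.mulVec M (fun i => if h : b i = t then z ⟨i, h⟩ else x i) j =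
              Matrix.mulVec (M.toSquareBlock b t) z ⟨j, hbj⟩ + w j := by
            simp only [Matrix.mulVec, dotProduct, w]
            have h4 : ∑ i : {i // b i = t}, M.toSquareBlock b t ⟨j, hbj⟩ i * z i =
                ∑ i, M j i * (if h : b i = t then z ⟨i, h⟩ else 0) := by
              have h5 : ∑ i, M j i * (if h : b i = t then z ⟨i, h⟩ else 0) =
                  ∑ i ∈ univ.filter (fun i => b i = t),
                    M j i * (if h : b i = t then z ⟨i, h⟩ else 0) := by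
                refine (Finset.sum_filter_of_ne fun i _ hi => ?_).symm
                by_contra hbi
                exact hi (by rw [dif_neg hbi, mul_zero])
              rw [h5, Finset.sum_subtype (p := fun i => b i = t) _ (by simp)]
              refine Finset.sum_congr rfl fun i _ => ?_
              rw [dif_pos i.2]
              rfl
            rw [h4, ← Finset.sum_add_distrib]
            refine Finset.sum_congr rfl fun i _ => ?_
            by_cases h : b i = t
            · simp [h]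
            · simp [h]
          rw [h3, ← hy2]
          simpa using hy1
  obtain ⟨x, hx1, hx2⟩ := claim N
  exact ⟨x, hx1, fun j => hx2 j (by omega)⟩

theorem result : ∀ (p : ℕ), p.Prime → ∀ (n : ℕ) (A : Matrix (Fin n) (Fin n) (ZMod p)),
    IsUnit A.det →
    ∀ (σ τ : Equiv.Perm (Fin n)) (b : Fin n → ℕ),
      (∀ t, (univ.filter (fun i => b i = t)).card ≤ 3) →
      (A.submatrix σ τ).BlockTriangular b →
    ∀ (k : ℕ), (k = 1 ∨ k + 3 = p) →
    ∀ (X Y : Fin n → Finset (ZMod p)), (∀ i, (X i).card = k + 2) →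
      (∀ j, (Y j).card = p - k) →
      ∃ x : Fin n → ZMod p, (∀ i, x i ∈ X i) ∧ ∀ j, Matrix.mulVec A x j ∈ Y j := by
  intro p hp n A hA σ τ b hb hT k hk X Y hX hY
  have : Fact p.Prime := ⟨hp⟩
  have hU : IsUnit (A.submatrix σ τ).det := by
    rw [← Matrix.isUnit_iff_isUnit_det] at hA ⊢
    exact (Matrix.isUnit_submatrix_equiv σ τ).2 hA
  obtain ⟨x, hx1, hx2⟩ := tri p k hk (A.submatrix σ τ) hU b hb hT (fun i => X (τ i))
    (fun j => Y (σ j)) (fun i => hX _) (fun j => hY _)
  refine ⟨fun i => x (τ.symm i), fun i => ?_, fun j => ?_⟩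
  · have := hx1 (τ.symm i)
    simpa using this
  · have := hx2 (σ.symm j)
    rw [Matrix.submatrix_mulVec_equiv] at this
    simpa [Function.comp_def] using this

end Pool.Agent.Results.MP_8e2770_co.ThreeByThree
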