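import Mathlib

set_option autoImplicit false

open Finset

namespace Pool.Agent.Results.MP_8e2770_co.TwoByTwo

section uni
open Polynomial
variable {F : Type*} [Field F]

lemma two_coeffs (p k : ℕ) [Fact p.Prime] [CharP F p] (hk : 2 * k < p) (a b a' b' : F)
    (hdet : a * b' - a' * b ≠ 0) :
    (((C a * X + C b) * (C a' * X + C b')) ^ k : F[X]).coeff k ≠ 0 ∨
    (((C a * X + C b) * (C a' * X + C b')) ^ k : F[X]).coeff (k + 1) ≠ 0 := by
  by_contra hcon
  push Not at hcon
  obtain ⟨c0, c1⟩ := hcon
  rcases Nat.eq_zero_or_pos k with hk0 | hk0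
  · subst hk0
    simp at c0
  set q : F[X] := (C a * X + C b) * (C a' * X + C b') with hq
  set α := a * a' with hα
  set β := a * b' + a' * b with hβ
  set γ := b * b' with hγ
  have hqe : q = C α * X ^ 2 + C β * X + C γ := by
    rw [hq, hα, hβ, hγ]
    simp only [map_mul, map_add]
    ring
  have hdisc : β ^ 2 - 4 * α * γ = (a * b' - a' * b) ^ 2 := by
    rw [hα, hβ, hγ]; ring
  have hode : q * derivative (q ^ k) = C (k : F) * (derivative q * q ^ k) := by
    obtain ⟨k', rfl⟩ : ∃ k', k = k' + 1 := ⟨k - 1, by omega⟩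
    rw [derivative_pow]
    have e0 : k' + 1 - 1 = k' := by omega
    rw [e0]
    ring
  have hdq : derivative q = C (2 * α) * X + C β := by
    rw [hqe, derivative_add, derivative_add, derivative_C_mul_X_sq, derivative_C_mul_X,
      derivative_C, add_zero, mul_comm α 2]
  have hrec : ∀ r : ℕ, α * ((r : F) + 1) * (q ^ k).coeff (r + 1) +
      β * ((r : F) + 2) * (q ^ k).coeff (r + 2) + γ * ((r : F) + 3) * (q ^ k).coeff (r + 3) =
      (k : F) * (2 * α * (q ^ k).coeff (r + 1) + β * (q ^ k).coeff (r + 2)) := by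
    intro r
    have h : (q * derivative (q ^ k)).coeff (r + 2) =
        (C (k : F) * (derivative q * q ^ k)).coeff (r + 2) := by rw [hode]
    rw [hdq] at h
    nth_rewrite 1 [hqe] at h
    have e1 : (C α * X ^ 2 + C β * X + C γ) * derivative (q ^ k) =
        C α * (derivative (q ^ k) * X ^ 2) + C β * (derivative (q ^ k) * X) +
          C γ * derivative (q ^ k) := by ring
    have e2 : (C (2 * α) * X + C β) * q ^ k = C (2 * α) * (q ^ k * X) + C β * q ^ k := by ring
    rw [e1, e2] at h
    simp only [coeff_add, coeff_C_mul, coeff_mul_X_pow, coeff_mul_X, coeff_derivative] at h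
    push_cast at h
    linear_combination h
  by_cases hg : γ = 0
  · -- `q = X (α X + β)`
    have e : q ^ k = X ^ k * (C α * X + C β) ^ k := by
      rw [← mul_pow, hqe, hg]
      congr 1
      simp only [map_zero]
      ring
    have h1 : (q ^ k).coeff k = β ^ k := by
      rw [e]
      have := Polynomial.coeff_X_pow_mul ((C α * X + C β) ^ k) k 0
      rw [zero_add] at this
      rw [this, coeff_zero_eq_eval_zero]
      simp
    rw [h1] at c0
    have h2 : β = 0 := pow_eq_zero_iff (by omega) |>.1 c0
    rw [h2, hg] at hdisc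
    apply hdet
    have : (a * b' - a' * b) ^ 2 = 0 := by rw [← hdisc]; ring
    exact pow_eq_zero_iff two_ne_zero |>.1 this
  · have hzero : ∀ s : ℕ, k + s + 1 ≤ 2 * k + 1 →
        (q ^ k).coeff (k + s) = 0 ∧ (k + s + 1 ≤ 2 * k → (q ^ k).coeff (k + s + 1) = 0) := by
      intro s
      induction s with
      | zero => intro _; exact ⟨c0, fun _ => c1⟩
      | succ s ih =>
        intro hs
        obtain ⟨i1, i2⟩ := ih (by omega)
        have i2' := i2 (by omega)
        refine ⟨by rw [← add_assoc]; exact i2', fun hs2 => ?_⟩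
        have h := hrec (k + s - 1)
        have e1 : k + s - 1 + 1 = k + s := by omega
        have e2 : k + s - 1 + 2 = k + s + 1 := by omega
        have e3 : k + s - 1 + 3 = k + (s + 1) + 1 := by omega
        rw [e1, e2, e3, i1, i2'] at h
        simp only [mul_zero, zero_add, add_zero] at h
        have hne : (((k + s - 1 : ℕ) : F) + 3) ≠ 0 := by
          have : (((k + s - 1 : ℕ) : F) + 3) = ((k + s + 2 : ℕ) : F) := by
            have : k + s + 2 = (k + s - 1) + 3 := by omega
            rw [this]; push_cast; ring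
          rw [this]
          intro h0
          have := (CharP.cast_eq_zero_iff F p (k + s + 2)).1 h0
          exact absurd (Nat.le_of_dvd (by omega) this) (by omega)
        exact (mul_eq_zero.1 h).resolve_left (mul_ne_zero hg hne)
    have h1 : (q ^ k).coeff (2 * k) = 0 := by
      have := (hzero k (by omega)).1
      rwa [← two_mul] at this
    have hdeg : q.natDegree ≤ 2 := by rw [hqe]; compute_degree
    have h2 : (q ^ k).coeff (k * 2) = q.coeff 2 ^ k := coeff_pow_of_natDegree_le hdeg
    rw [mul_comm k 2, h1] at h2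
    have h3 : q.coeff 2 = α := by
      rw [hqe]
      simp [coeff_X, coeff_C]
    have h4 : α = 0 := by
      rw [h3] at h2
      exact pow_eq_zero_iff (by omega) |>.1 h2.symm
    have hdeg1 : q.natDegree ≤ 1 := by
      rw [hqe, h4]
      simp only [map_zero, zero_mul, zero_add]
      compute_degree
    have h5 : (q ^ k).coeff (k * 1) = q.coeff 1 ^ k := coeff_pow_of_natDegree_le hdeg1
    rw [mul_one, c0] at h5
    have h6 : q.coeff 1 = β := by
      rw [hqe]
      simp [coeff_X, coeff_C, coeff_X_pow]
    rw [h6] at h5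
    have h7 : β = 0 := pow_eq_zero_iff (by omega) |>.1 h5.symm
    rw [h7, h4] at hdisc
    apply hdet
    have : (a * b' - a' * b) ^ 2 = 0 := by rw [← hdisc]; ring
    exact pow_eq_zero_iff two_ne_zero |>.1 this

end uni

section bi
open MvPolynomial
variable {F : Type*} [Field F]

def Good (P : MvPolynomial (Fin 2) F) (d : ℕ) (f : Polynomial F) : Prop :=
  P.totalDegree ≤ d ∧ f.natDegree ≤ d ∧
    ∀ i j, i + j = d → coeff (Finsupp.single 0 i + Finsupp.single 1 j) P = f.coeff i

lemma good_one : Good (1 : MvPolynomial (Fin 2) F) 0 1 := by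
  refine ⟨by simp, by simp, ?_⟩
  intro i j h
  have hi : i = 0 := by omega
  have hj : j = 0 := by omega
  subst hi hj
  simp

lemma good_mul {P : MvPolynomial (Fin 2) F} {d : ℕ} {f : Polynomial F} (h : Good P d f)
    (a b z : F) :
    Good (P * (C a * X 0 + C b * X 1 - C z)) (d + 1)
      (f * (Polynomial.C a * Polynomial.X + Polynomial.C b)) := by
  obtain ⟨h1, h2, h3⟩ := h
  refine ⟨?_, ?_, ?_⟩
  · refine (totalDegree_mul _ _).trans (Nat.add_le_add h1 ?_)
    refine (totalDegree_sub _ _).trans (max_le ?_ (by simp))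
    refine (totalDegree_add _ _).trans (max_le ?_ ?_)
    · exact (totalDegree_mul _ _).trans (by simp)
    · exact (totalDegree_mul _ _).trans (by simp)
  · refine Polynomial.natDegree_mul_le.trans (Nat.add_le_add h2 ?_)
    compute_degree
  · intro i j hij
    have e : P * (C a * X 0 + C b * X 1 - C z) = C a * (P * X 0) + C b * (P * X 1) - C z * P := by
      ring
    have e' : f * (Polynomial.C a * Polynomial.X + Polynomial.C b) =
        Polynomial.C a * (f * Polynomial.X) + Polynomial.C b * f := by ring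
    have hz : coeff (Finsupp.single 0 i + Finsupp.single 1 j) P = 0 := by
      by_contra hne
      have := le_totalDegree (mem_support_iff.2 hne)
      have hs : (Finsupp.single (0 : Fin 2) i + Finsupp.single 1 j).sum (fun _ e => e) = i + j := by
        rw [Finsupp.sum_fintype _ _ (by simp)]
        simp [Fin.sum_univ_two]
      rw [hs] at this
      omega
    rw [e, e', coeff_sub, coeff_add, coeff_C_mul, coeff_C_mul, coeff_C_mul, hz,
      Polynomial.coeff_add, Polynomial.coeff_C_mul, Polynomial.coeff_C_mul]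
    have hX0 : coeff (Finsupp.single 0 i + Finsupp.single 1 j) (P * X 0) =
        (f * Polynomial.X).coeff i := by
      rcases i with _ | i
      · rw [Polynomial.coeff_mul_X_zero, coeff_mul_X', if_neg]
        simp
      · rw [Polynomial.coeff_mul_X]
        have : (Finsupp.single (0 : Fin 2) (i + 1) + Finsupp.single 1 j) =
            (Finsupp.single 0 i + Finsupp.single 1 j) + Finsupp.single 0 1 := by
          rw [Finsupp.single_add]; abel
        rw [this, coeff_mul_X]
        exact h3 i j (by omega)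
    have hX1 : coeff (Finsupp.single 0 i + Finsupp.single 1 j) (P * X 1) = f.coeff i := by
      rcases j with _ | j
      · rw [coeff_mul_X', if_neg]
        · exact (Polynomial.coeff_eq_zero_of_natDegree_lt (by omega)).symm
        · simp
      · have : (Finsupp.single (0 : Fin 2) i + Finsupp.single 1 (j + 1)) =
            (Finsupp.single 0 i + Finsupp.single 1 j) + Finsupp.single 1 1 := by
          rw [Finsupp.single_add]; abel
        rw [this, coeff_mul_X]
        exact h3 i j (by omega)
    rw [hX0, hX1]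
    ring

lemma good_prod {P : MvPolynomial (Fin 2) F} {d : ℕ} {f : Polynomial F} (h : Good P d f)
    (a b : F) (Z : Finset F) :
    Good (P * ∏ z ∈ Z, (C a * X 0 + C b * X 1 - C z)) (d + Z.card)
      (f * (Polynomial.C a * Polynomial.X + Polynomial.C b) ^ Z.card) := by
  classical
  induction Z using Finset.induction_on with
  | empty => simpa using h
  | insert z Z hz ih =>
    rw [Finset.prod_insert hz, Finset.card_insert_of_notMem hz]
    have e1 : P * ((C a * X 0 + C b * X 1 - C z) * ∏ z ∈ Z, (C a * X 0 + C b * X 1 - C z)) =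
        (P * ∏ z ∈ Z, (C a * X 0 + C b * X 1 - C z)) * (C a * X 0 + C b * X 1 - C z) := by ring
    have e2 : f * (Polynomial.C a * Polynomial.X + Polynomial.C b) ^ (Z.card + 1) =
        (f * (Polynomial.C a * Polynomial.X + Polynomial.C b) ^ Z.card) *
          (Polynomial.C a * Polynomial.X + Polynomial.C b) := by ring
    rw [e1, e2, ← add_assoc]
    exact good_mul ih a b z

lemma half (p k : ℕ) [Fact p.Prime] (hk : 2 * k < p) (A : Matrix (Fin 2) (Fin 2) (ZMod p))
    (hA : IsUnit A.det) (X Y : Fin 2 → Finset (ZMod p)) (hX : ∀ i, (X i).card = k + 2)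
    (hY : ∀ j, (Y j).card = p - k) :
    ∃ x : Fin 2 → ZMod p, (∀ i, x i ∈ X i) ∧ ∀ j, Matrix.mulVec A x j ∈ Y j := by
  classical
  have hZ : ∀ j, ((Y j)ᶜ).card = k := by
    intro j
    rw [Finset.card_compl, ZMod.card, hY j]
    omega
  have hG := good_prod (good_prod (good_one (F := ZMod p)) (A 0 0) (A 0 1) ((Y 0)ᶜ))
    (A 1 0) (A 1 1) ((Y 1)ᶜ)
  set P : MvPolynomial (Fin 2) (ZMod p) :=
    (1 * ∏ z ∈ (Y 0)ᶜ, (C (A 0 0) * MvPolynomial.X 0 + C (A 0 1) * MvPolynomial.X 1 - C z)) *
      ∏ z ∈ (Y 1)ᶜ, (C (A 1 0) * MvPolynomial.X 0 + C (A 1 1) * MvPolynomial.X 1 - C z) with hP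
  rw [hZ 0, hZ 1, one_mul, zero_add, ← mul_pow] at hG
  obtain ⟨hG1, hG2, hG3⟩ := hG
  have hdet : A 0 0 * A 1 1 - A 1 0 * A 0 1 ≠ 0 := by
    have := hA.ne_zero
    rw [Matrix.det_fin_two] at this
    intro h
    apply this
    rw [← h]; ring
  have htc := two_coeffs p k hk (A 0 0) (A 0 1) (A 1 0) (A 1 1) hdet
  have key : ∃ i j : ℕ, i + j = k + k ∧ i < k + 2 ∧ j < k + 2 ∧
      coeff (Finsupp.single 0 i + Finsupp.single 1 j) P ≠ 0 := by
    rcases htc with h | h
    · refine ⟨k, k, rfl, by omega, by omega, ?_⟩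
      rw [hG3 k k rfl]
      exact h
    · rcases Nat.eq_zero_or_pos k with hk0 | hk0
      · exfalso
        apply h
        subst hk0
        rw [pow_zero, zero_add]
        simp [Polynomial.coeff_one]
      · refine ⟨k + 1, k - 1, by omega, by omega, by omega, ?_⟩
        rw [hG3 (k + 1) (k - 1) (by omega)]
        exact h
  obtain ⟨i, j, hij, hi, hj, hc⟩ := key
  have htd : P.totalDegree = (Finsupp.single (0 : Fin 2) i + Finsupp.single 1 j).degree := by
    have hs : (Finsupp.single (0 : Fin 2) i + Finsupp.single 1 j).degree = i + j := by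
      rw [map_add, Finsupp.degree_single, Finsupp.degree_single]
    rw [hs]
    apply le_antisymm
    · rw [hij]; exact hG1
    · have h1 := le_totalDegree (mem_support_iff.2 hc)
      have hs' : (Finsupp.single (0 : Fin 2) i + Finsupp.single 1 j).sum (fun _ e => e) =
          i + j := by
        rw [Finsupp.sum_fintype _ _ (by simp)]
        simp [Fin.sum_univ_two]
      rw [hs'] at h1
      exact h1
  obtain ⟨x, hx, hxe⟩ := MvPolynomial.combinatorial_nullstellensatz_exists_eval_nonzero P
    (Finsupp.single (0 : Fin 2) i + Finsupp.single 1 j) hc htd X (by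
      intro l
      rw [hX l]
      fin_cases l
      · simpa using hi
      · simpa using hj)
  refine ⟨x, hx, ?_⟩
  rw [hP] at hxe
  rw [one_mul, map_mul, map_prod, map_prod] at hxe
  have hl := (mul_ne_zero_iff.1 hxe).1
  have hr := (mul_ne_zero_iff.1 hxe).2
  intro l
  by_contra hn
  fin_cases l
  · have hm : Matrix.mulVec A x 0 ∈ (Y 0)ᶜ := Finset.mem_compl.2 hn
    apply Finset.prod_ne_zero_iff.1 hl _ hm
    simp [Matrix.mulVec, dotProduct, Fin.sum_univ_two]
  · have hm : Matrix.mulVec A x 1 ∈ (Y 1)ᶜ := Finset.mem_compl.2 hn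
    apply Finset.prod_ne_zero_iff.1 hr _ hm
    simp [Matrix.mulVec, dotProduct, Fin.sum_univ_two]

end bi

theorem result : ∀ (p : ℕ), p.Prime → ∀ (A : Matrix (Fin 2) (Fin 2) (ZMod p)), IsUnit A.det →
    ∀ (k : ℕ) (X Y : Fin 2 → Finset (ZMod p)), (∀ i, (X i).card = k + 2) →
      (∀ j, (Y j).card = p - k) →
      ∃ x : Fin 2 → ZMod p, (∀ i, x i ∈ X i) ∧ ∀ j, Matrix.mulVec A x j ∈ Y j := by
  intro p hp A hA k X Y hX hY
  have : Fact p.Prime := ⟨hp⟩
  have hkp : k + 2 ≤ p := by
    have := Finset.card_le_univ (X 0)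
    rwa [hX 0, ZMod.card] at this
  by_cases hk : 2 * k < p
  · exact half p k hk A hA X Y hX hY
  · have hA' : IsUnit (A⁻¹).det := Matrix.isUnit_nonsing_inv_det A hA
    obtain ⟨y, hy1, hy2⟩ := half p (p - 2 - k) (by omega) A⁻¹ hA' Y X
      (fun i => by rw [hY i]; omega) (fun j => by rw [hX j]; omega)
    refine ⟨Matrix.mulVec A⁻¹ y, hy2, fun j => ?_⟩
    rw [Matrix.mulVec_mulVec, Matrix.mul_nonsing_inv A hA, Matrix.one_mulVec]
    exact hy1 j

end Pool.Agent.Results.MP_8e2770_co.TwoByTwo
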